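import Pool.Agent.N869.GK.StmM
import Pool.Agent.N364.GK.FACT
import Pool.Agent.N386.GK.FAM

/-!
# Project GK, variant M, part PRODM: the stable sets are products
-/

set_option autoImplicit false
set_option linter.unusedVariables false

open scoped Classical

namespace Pool.Agent.N933.GKM

open Finset Pool.Agent.N869.GK
open Pool.Agent.N869.GK.M (actM StbM)
open Pool.Agent.N386.GK (qf Qs_eq dd zadd qf_congr Sp_add rs_add rs_mem rs_self card_PZ)
open Pool.Agent.N364.GK (mem_rd mem_Sp mem_cp mem_PZ rs_rd MS_rd)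

variable {ι C : Type} [Fintype ι] [Fintype C]

/-- the matrix `M` at `k` and `0` elsewhere -/
noncomputable def at1 (k : C) (M : Matrix (Fin 2) (Fin 2) (ZMod 2)) : C → Matrix (Fin 2) (Fin 2) (ZMod 2) :=
  fun j => if j = k then M else 0

omit [Fintype ι] [Fintype C] in
theorem act_at (κ : ι → C) (k : C) (M : Matrix (Fin 2) (Fin 2) (ZMod 2)) (ζ : Dc ι) (x : ι) :
    actM κ (at1 k M) ζ x = if κ x = k then (M.mulVec (ζ x).1, M.mulVec (ζ x).2) else 0 := by
  unfold actM at1
  by_cases h : κ x = k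
  · simp [h]
  · simp [h]

omit [Fintype ι] [Fintype C] in
theorem act_one (κ : ι → C) (k : C) (ζ : Dc ι) : actM κ (at1 k 1) ζ = rs κ k ζ := by
  funext x
  rw [act_at]
  unfold rs
  split_ifs <;> simp

omit [Fintype ι] [Fintype C] in
theorem xadd (u : V × V) : u + u = 0 := by
  refine Prod.ext ?_ ?_ <;> funext i <;> exact CharTwo.add_self_eq_zero _

theorem card_univ_sum (κ : ι → C) : (univ : Finset ι).card = ∑ k, (cp κ k).card := by
  unfold cp
  exact Finset.card_eq_sum_card_fiberwise (fun x _ => mem_univ (κ x))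

theorem t_PRODM : Pool.Agent.N869.GK.M.S_PRODM := by
  intro hU _ ι C _ _ κ Z
  constructor
  · rintro ⟨hM, hS⟩
    have hne : Z.Nonempty := by
      rw [← card_pos, hM.2.1]
      positivity
    -- change of one part
    have swap : ∀ k, ∀ ζ ∈ Z, ∀ ζ' ∈ Z, ζ + rs κ k (ζ + ζ') ∈ Z := by
      intro k ζ hζ ζ' hζ'
      have h := hS (at1 k 1) ζ hζ ζ' hζ'
      rwa [act_one] at h
    have swx : ∀ (k : C) (ζ ζ' : Dc ι) (x : ι), (ζ + rs κ k (ζ + ζ')) x =
        if κ x = k then ζ' x else ζ x := by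
      intro k ζ ζ' x
      rw [Pi.add_apply]
      unfold rs
      split_ifs
      · rw [Pi.add_apply, ← add_assoc, xadd, zero_add]
      · rw [add_zero]
    set Y : C → Finset (Dc ι) := fun k => Z.image (rs κ k) with hY
    have hYm : ∀ k η, η ∈ Y k ↔ ∃ ζ ∈ Z, rs κ k ζ = η := by
      intro k η
      simp only [hY, mem_image]
    have hYS : ∀ k, Y k ⊆ Sp (cp κ k) := by
      intro k η hη
      obtain ⟨ζ, _, rfl⟩ := (hYm k η).1 hη
      exact rs_mem κ k ζ
    have hZY : Z = PZ κ Y fun _ => True := by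
      ext ζ
      rw [mem_PZ]
      constructor
      · intro hζ
        exact ⟨fun x hx => absurd trivial hx, fun a _ => (hYm a _).2 ⟨ζ, hζ, rfl⟩⟩
      · rintro ⟨_, h⟩
        have key : ∀ S : Finset C, ∃ w ∈ Z, ∀ x, κ x ∈ S → w x = ζ x := by
          intro S
          induction S using Finset.induction_on with
          | empty =>
            obtain ⟨z, hz⟩ := hne
            exact ⟨z, hz, fun x hx => absurd hx (notMem_empty _)⟩
          | insert b S hb ih =>
            obtain ⟨w, hw, hwx⟩ := ih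
            obtain ⟨ζ', hζ', he⟩ := (hYm b _).1 (h b trivial)
            refine ⟨_, swap b w hw ζ' hζ', fun x hx => ?_⟩
            rw [swx]
            by_cases hxb : κ x = b
            · rw [if_pos hxb]
              have := congrFun he x
              unfold rs at this
              rwa [if_pos hxb, if_pos hxb] at this
            · rw [if_neg hxb]
              exact hwx x ((mem_insert.1 hx).resolve_left hxb)
        obtain ⟨w, hw, hwx⟩ := key univ
        have : w = ζ := funext fun x => hwx x (mem_univ _)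
        rwa [← this]
    have hYQ : ∀ k, ∀ η ∈ Y k, ∀ η' ∈ Y k, Qs (cp κ k) η η' = 0 := by
      intro k η hη η' hη'
      obtain ⟨ζ, hζ, rfl⟩ := (hYm k η).1 hη
      obtain ⟨ζ', hζ', rfl⟩ := (hYm k η').1 hη'
      have h1 := hM.2.2 ζ hζ _ (swap k ζ hζ ζ' hζ')
      rw [Qs_eq, ← add_assoc, dd, zero_add] at h1
      rw [Qs_eq, ← rs_add, ← h1]
      refine qf_congr (subset_univ _) (fun x _ => rfl) (fun x _ hx => ?_)
      exact mem_Sp.1 (rs_mem κ k (ζ + ζ')) x hx
    have hYle : ∀ k, (Y k).card ≤ 4 ^ (cp κ k).card := fun k =>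
      (hU ι (cp κ k)).1 (Y k) (hYS k) (hYQ k)
    have hYpos : ∀ k, 0 < (Y k).card := by
      intro k
      rw [card_pos]
      obtain ⟨z, hz⟩ := hne
      exact ⟨rs κ k z, (hYm k _).2 ⟨z, hz, rfl⟩⟩
    have hYc : ∀ k, (Y k).card = 4 ^ (cp κ k).card := by
      intro k
      by_contra hcon
      have hlt : (Y k).card < 4 ^ (cp κ k).card := lt_of_le_of_ne (hYle k) hcon
      have h1 := hM.2.1
      rw [hZY, card_PZ κ Y _ hYS univ (by simp), card_univ_sum κ,
        ← Finset.prod_pow_eq_pow_sum] at h1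
      have h2 : ∏ b, (Y b).card < ∏ b, 4 ^ (cp κ b).card :=
        Finset.prod_lt_prod (fun b _ => hYpos b) (fun b _ => hYle b) ⟨k, mem_univ _, hlt⟩
      exact absurd h1 (ne_of_lt h2)
    have hMY : ∀ k, MS (cp κ k) (Y k) := fun k => ⟨hYS k, hYc k, hYQ k⟩
    refine ⟨Y, fun k => ⟨hMY k, MS_rd (hMY k), ?_⟩, hZY⟩
    intro M ζ hζ ζ' hζ'
    obtain ⟨η, hη, rfl⟩ := mem_rd.1 hζ
    obtain ⟨η', hη', rfl⟩ := mem_rd.1 hζ'
    obtain ⟨z, hz, rfl⟩ := (hYm k η).1 hη
    obtain ⟨z', hz', rfl⟩ := (hYm k η').1 hη'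
    have h1 := hS (at1 k M) z hz z' hz'
    refine mem_rd.2 ⟨_, (hYm k _).2 ⟨_, h1, rfl⟩, ?_⟩
    funext x
    obtain ⟨x, hx⟩ := x
    have e1 : ∀ u : Dc ι, rs κ k u x = u x := fun u => by
      unfold rs
      rw [if_pos hx]
    show rs κ k (z + actM κ (at1 k M) (z + z')) x = _
    rw [e1, Pi.add_apply, act_at, if_pos hx, Pi.add_apply]
    unfold act
    rw [Pi.add_apply]
    simp only [Pi.add_apply, e1]
  · rintro ⟨Y, hY, rfl⟩
    have hYS : ∀ k, Y k ⊆ Sp (cp κ k) := fun k => (hY k).1.1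
    refine ⟨⟨fun ζ _ => mem_Sp.2 fun x hx => absurd (mem_univ x) hx, ?_, ?_⟩, ?_⟩
    · rw [card_PZ κ Y _ hYS univ (by simp), card_univ_sum κ, ← Finset.prod_pow_eq_pow_sum]
      exact prod_congr rfl fun k _ => (hY k).1.2.1
    · intro ζ hζ ζ' hζ'
      rw [mem_PZ] at hζ hζ'
      unfold Qs
      rw [← Finset.sum_fiberwise_of_maps_to (s := univ) (t := univ) (g := κ) (fun x _ => mem_univ _)]
      refine sum_eq_zero fun k _ => ?_
      have h1 := (hY k).1.2.2 _ (hζ.2 k trivial) _ (hζ'.2 k trivial)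
      rw [← h1]
      unfold Qs cp
      refine sum_congr rfl fun x hx => ?_
      have hx' : κ x = k := (mem_filter.1 hx).2
      simp only [rs, if_pos hx']
    · intro M ζ hζ ζ' hζ'
      rw [mem_PZ] at hζ hζ' ⊢
      refine ⟨fun x hx => absurd trivial hx, fun k _ => ?_⟩
      rw [rs_rd (hYS k)]
      have h1 := (rs_rd (hYS k)).1 (hζ.2 k trivial)
      have h2 := (rs_rd (hYS k)).1 (hζ'.2 k trivial)
      have h3 := (hY k).2.2 (M k) _ h1 _ h2
      convert h3 using 1
      funext x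
      obtain ⟨x, hx⟩ := x
      show (ζ + actM κ M (ζ + ζ')) x = _
      rw [Pi.add_apply]
      unfold actM act
      rw [Pi.add_apply, hx]
      rfl

end Pool.Agent.N933.GKM
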